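import Pool.Agent.V7H62.AC.Fin
import Pool.Agent.H217R3.AK.Bsg
import Pool.Agent.Helper924.MW.Lower

/-!
# Additively structured choices of residue classes: asymptotics
-/

set_option autoImplicit false

open Finset Filter Topology
open scoped Pointwise

namespace Pool.Agent.V7H62.AC

open Pool.Agent.H170R2.PC

/-- The number of `(p₁, p₂, p₃, p₄)` in `Q⁴` with `p₁ + p₂ = p₃ + p₄` and
`b(p₁) + b(p₂) = b(p₃) + b(p₄)`. -/
def quadruples (Q : Finset ℕ) (b : ℕ → ℤ) : ℕ :=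
  (((Q ×ˢ Q) ×ˢ (Q ×ˢ Q)).filter fun x : (ℕ × ℕ) × (ℕ × ℕ) =>
    x.1.1 + x.1.2 = x.2.1 + x.2.2 ∧ b x.1.1 + b x.1.2 = b x.2.1 + b x.2.2).card

lemma div_bound {ε : ℝ} (hε : 0 < ε) : ∃ C : ℝ, 1 ≤ C ∧ ∀ n : ℕ, 1 ≤ n →
    (n.divisors.card : ℝ) ≤ C * (n : ℝ) ^ ε := by
  obtain ⟨K, hK⟩ := exists_nat_gt (1 / ε)
  have hK0 : 0 < (K : ℝ) := lt_trans (by positivity) hK
  have hK0' : 0 < K := by exact_mod_cast hK0
  obtain ⟨C, hC1, hC⟩ := Pool.Agent.Helper924.MW.Lower.exists_divisor_bound K hK0'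
  refine ⟨C, by exact_mod_cast hC1, fun n hn => ?_⟩
  have h1 : ((n.divisors.card : ℝ)) ^ K ≤ C * n := by exact_mod_cast hC n (by omega)
  have hn1 : (1 : ℝ) ≤ n := by exact_mod_cast hn
  have hC1' : (1 : ℝ) ≤ C := by exact_mod_cast hC1
  have h2 : (C : ℝ) * n ≤ (C * (n : ℝ) ^ ε) ^ K := by
    rw [mul_pow]
    have h3 : (C : ℝ) ≤ (C : ℝ) ^ K := le_self_pow₀ hC1' (by omega)
    have h4 : (n : ℝ) ≤ ((n : ℝ) ^ ε) ^ K := by
      rw [← Real.rpow_natCast, ← Real.rpow_mul (by positivity)]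
      calc (n : ℝ) = (n : ℝ) ^ (1 : ℝ) := (Real.rpow_one _).symm
        _ ≤ (n : ℝ) ^ (ε * K) := by
          apply Real.rpow_le_rpow_of_exponent_le hn1
          rw [div_lt_iff₀ hε] at hK
          linarith
    gcongr
  exact le_of_pow_le_pow_left₀ (by omega) (by positivity) (h1.trans h2)

lemma quad_le_cube (Q : Finset ℕ) (b : ℕ → ℤ) : quadruples Q b ≤ Q.card ^ 3 := by
  classical
  have h : Q.card ^ 3 = (Q ×ˢ (Q ×ˢ Q)).card := by
    rw [card_product, card_product]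
    ring
  rw [h, quadruples]
  refine card_le_card_of_injOn (fun x : (ℕ × ℕ) × (ℕ × ℕ) => (x.1.1, x.1.2, x.2.1)) ?_ ?_
  · rintro ⟨⟨p, q⟩, ⟨r, u⟩⟩ hx
    rw [mem_coe, mem_filter, mem_product, mem_product, mem_product] at hx
    rw [mem_coe, mem_product, mem_product]
    exact ⟨hx.1.1.1, hx.1.1.2, hx.1.2.1⟩
  · rintro ⟨⟨p, q⟩, ⟨r, u⟩⟩ hx ⟨⟨p', q'⟩, ⟨r', u'⟩⟩ hx' he
    rw [mem_coe, mem_filter] at hx hx'
    simp only [Prod.mk.injEq] at he hx hx' ⊢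
    obtain ⟨e1, e2, e3⟩ := he
    subst e1 e2 e3
    exact ⟨⟨rfl, rfl⟩, rfl, by omega⟩

lemma quad_le_energy (Q : Finset ℕ) (b : ℕ → ℤ) :
    quadruples Q b ≤ (Gr Q b).addEnergy (Gr Q b) := by
  classical
  rw [quadruples, Finset.addEnergy]
  refine card_le_card_of_injOn (fun x : (ℕ × ℕ) × (ℕ × ℕ) =>
    (((((x.1.1 : ℤ), b x.1.1), ((x.2.1 : ℤ), b x.2.1)),
      (((x.1.2 : ℤ), b x.1.2), ((x.2.2 : ℤ), b x.2.2))) :
      ((ℤ × ℤ) × (ℤ × ℤ)) × ((ℤ × ℤ) × (ℤ × ℤ)))) ?_ ?_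
  · rintro ⟨⟨p, q⟩, ⟨r, u⟩⟩ hx
    rw [mem_coe, mem_filter, mem_product, mem_product, mem_product] at hx
    obtain ⟨⟨⟨h1, h2⟩, ⟨h3, h4⟩⟩, h5, h6⟩ := hx
    simp only at h1 h2 h3 h4 h5 h6
    rw [mem_coe, mem_filter, mem_product, mem_product, mem_product]
    refine ⟨⟨⟨mem_Gr h1, mem_Gr h3⟩, ⟨mem_Gr h2, mem_Gr h4⟩⟩, ?_⟩
    simp only [Prod.mk_add_mk, Prod.mk.injEq]
    exact ⟨by exact_mod_cast h5, h6⟩
  · rintro ⟨⟨p, q⟩, ⟨r, u⟩⟩ hx ⟨⟨p', q'⟩, ⟨r', u'⟩⟩ hx' he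
    simp only [Prod.mk.injEq, Nat.cast_inj] at he ⊢
    exact ⟨⟨he.1.1.1, he.2.1.1⟩, he.1.2.1, he.2.2.1⟩

/-- a structured part of `Q` -/
lemma structured_part {Q : Finset ℕ} {b : ℕ → ℤ} (hQ : Q.Nonempty) {K : ℝ} (hK : 0 < K)
    (hE : (Q.card : ℝ) ^ 3 ≤ K * quadruples Q b) :
    ∃ R ⊆ Q, R.Nonempty ∧ (Q.card : ℝ) ≤ 8 * K * R.card ∧
      ((Gr R b - Gr R b).card : ℝ) ≤ 2 ^ 22 * K ^ 10 * R.card := by
  classical
  obtain ⟨B, hB, hBne, h1, h2⟩ := Pool.Agent.H217R3.AK.bsg (Gr Q b) (hQ.image _) K hK (by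
    rw [card_Gr]
    refine hE.trans ?_
    refine mul_le_mul_of_nonneg_left ?_ hK.le
    exact_mod_cast quad_le_energy Q b)
  have hG : Gr (Q.filter fun p : ℕ => (((p : ℤ), b p) : ℤ × ℤ) ∈ B) b = B := by
    ext x
    rw [Gr, mem_image]
    constructor
    · rintro ⟨p, hp, rfl⟩
      exact (mem_filter.mp hp).2
    · intro hx
      obtain ⟨p, hp, rfl⟩ := mem_image.mp (hB hx)
      exact ⟨p, mem_filter.mpr ⟨hp, hx⟩, rfl⟩
  have hc := card_Gr (Q.filter fun p : ℕ => (((p : ℤ), b p) : ℤ × ℤ) ∈ B) b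
  rw [hG] at hc
  refine ⟨Q.filter fun p : ℕ => (((p : ℤ), b p) : ℤ × ℤ) ∈ B, filter_subset _ _, ?_, ?_, ?_⟩
  · rw [← card_pos, ← hc]
    exact hBne.card_pos
  · rw [← hc, ← card_Gr Q b]
    exact h1
  · rw [hG, ← hc]
    exact h2

lemma card_range {α : ℝ} {N : ℕ} {Q : Finset ℕ} (hN : 1 ≤ (N : ℝ) ^ α)
    (hQ : ∀ p ∈ Q, InRange α N p) : (Q.card : ℝ) ≤ 2 * (N : ℝ) ^ α := by
  set X := (N : ℝ) ^ α with hX
  have hsub : Q ⊆ Ico ⌈X⌉₊ ⌈2 * X⌉₊ := by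
    intro p hp
    obtain ⟨_, h2, h3⟩ := hQ p hp
    rw [mem_Ico]
    exact ⟨Nat.ceil_le.mpr h2, Nat.lt_ceil.mpr h3⟩
  have h1 := card_le_card hsub
  rw [Nat.card_Ico] at h1
  have h2 : ⌈X⌉₊ ≤ ⌈2 * X⌉₊ := Nat.ceil_le_ceil (by linarith)
  have h3 : (Q.card : ℝ) ≤ (⌈2 * X⌉₊ : ℝ) - ⌈X⌉₊ := by
    rw [← Nat.cast_sub h2]
    exact_mod_cast h1
  have h4 := Nat.le_ceil X
  have h5 := Nat.ceil_lt_add_one (show 0 ≤ 2 * X by linarith)
  linarith

/-- the last computation -/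
lemma final_step {x α β δ ε c v V T S q L : ℝ} {h : ℕ} (hx : 1 ≤ x) (hα1 : α < 1) (hδ : 0 ≤ δ)
    (hε : 0 < ε)    (hc : 1 ≤ c) (hv : 1 ≤ v) (hS : 0 ≤ S)
    (hq : x ^ (α - 4 * δ / 3) / 64 ≤ q)
    (hV : V = v * x ^ (10 * δ))
    (hL1 : x ^ (1 - α) / 32 ≤ L - 1) (hL2 : L ≤ x ^ (1 - α))
    (hT : T ^ 2 ≤ 27 * (c * x ^ ε) * x ^ max β (1 - α) * V ^ 5)
    (hmain : q * (L - 1) ^ 2 ≤ S * (L * (1 + h * V) + T))
    (hbig : 2 ^ 16 * ((1 + h * v) + 6 * c * v ^ 3) ≤ x ^ (ε / 2)) :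
    x ^ (min 1 (2 - α - β / 2) - 27 * δ - ε) ≤ S := by
  have hx0 : 0 < x := by linarith
  obtain ⟨μ, hμ⟩ : ∃ μ : ℝ, μ = max (1 - α) (β / 2) := ⟨_, rfl⟩
  have hμ1 : 1 - α ≤ μ := hμ ▸ le_max_left _ _
  have hμ2 : β / 2 ≤ μ := hμ ▸ le_max_right _ _
  obtain ⟨W, hW⟩ : ∃ W : ℝ, W = x ^ (μ + 25 * δ + ε / 2) := ⟨_, rfl⟩
  have hW0 : 0 < W := by rw [hW]; positivity
  have hW2 : W ^ 2 = x ^ (2 * μ + 50 * δ + ε) := by
    rw [hW, ← Real.rpow_natCast, ← Real.rpow_mul hx0.le]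
    congr 1
    push_cast
    ring
  have hc0 : 0 < c := by linarith
  -- the bound for T
  have hv0 : 0 < v := by linarith
  have hTle : T ≤ 6 * c * v ^ 3 * W := by
    refine le_of_sq_le_sq ?_ (by positivity)
    have e1 : V ^ 5 = v ^ 5 * x ^ (50 * δ) := by
      rw [hV, mul_pow, ← Real.rpow_natCast (x ^ (10 * δ)), ← Real.rpow_mul hx0.le]
      congr 2
      push_cast
      ring
    have e2 : x ^ max β (1 - α) ≤ x ^ (2 * μ) := by
      refine Real.rpow_le_rpow_of_exponent_le hx (max_le (by linarith) ?_)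
      linarith
    calc T ^ 2 ≤ 27 * (c * x ^ ε) * x ^ max β (1 - α) * V ^ 5 := hT
      _ ≤ 27 * (c * x ^ ε) * x ^ (2 * μ) * V ^ 5 := by
          have : 0 ≤ V ^ 5 := by rw [e1]; positivity
          gcongr
      _ = 27 * (c * v ^ 5) * (x ^ (2 * μ) * x ^ (50 * δ) * x ^ ε) := by rw [e1]; ring
      _ = 27 * (c * v ^ 5) * W ^ 2 := by
          rw [hW2, Real.rpow_add hx0, Real.rpow_add hx0]
      _ ≤ 36 * (c ^ 2 * v ^ 6) * W ^ 2 := by
          have e3 : c * v ^ 5 ≤ c ^ 2 * v ^ 6 := by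
            have : c ≤ c ^ 2 := by nlinarith
            have : v ^ 5 ≤ v ^ 6 := pow_le_pow_right₀ hv (by norm_num)
            gcongr
          have e4 : 0 ≤ c * v ^ 5 := by positivity
          refine mul_le_mul_of_nonneg_right ?_ (by positivity)
          linarith
      _ = (6 * c * v ^ 3 * W) ^ 2 := by ring
  have hLV : L * (1 + h * V) ≤ (1 + h * v) * W := by
    have e1 : 1 ≤ x ^ (10 * δ) := Real.one_le_rpow hx (by positivity)
    have e2 : 1 + h * V ≤ (1 + h * v) * x ^ (10 * δ) := by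
      rw [hV]
      have : (1 + (h : ℝ) * v) * x ^ (10 * δ) = x ^ (10 * δ) + h * (v * x ^ (10 * δ)) := by
        ring
      rw [this]
      linarith
    have e3 : 0 ≤ 1 + h * V := by rw [hV]; positivity
    calc L * (1 + h * V) ≤ x ^ (1 - α) * ((1 + h * v) * x ^ (10 * δ)) := by gcongr
      _ = (1 + h * v) * x ^ (1 - α + 10 * δ) := by
          rw [Real.rpow_add hx0]
          ring
      _ ≤ (1 + h * v) * W := by
          rw [hW]
          refine mul_le_mul_of_nonneg_left ?_ (by positivity)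
          exact Real.rpow_le_rpow_of_exponent_le hx (by linarith)
  have hlow : x ^ (2 - α - 4 * δ / 3) / 2 ^ 16 ≤ q * (L - 1) ^ 2 := by
    have e1 : x ^ (2 - α - 4 * δ / 3) / 2 ^ 16
        = (x ^ (α - 4 * δ / 3) / 64) * (x ^ (1 - α) / 32) ^ 2 := by
      rw [div_pow, ← Real.rpow_natCast (x ^ (1 - α)), ← Real.rpow_mul hx0.le, div_mul_div_comm,
        ← Real.rpow_add hx0]
      norm_num
      congr 1
      ring
    have hq0 : 0 ≤ q := le_trans (by positivity) hq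
    rw [e1]
    gcongr
  have h1 : x ^ (2 - α - 4 * δ / 3) / 2 ^ 16 ≤ S * (((1 + h * v) + 6 * c * v ^ 3) * W) := by
    refine hlow.trans (hmain.trans ?_)
    refine mul_le_mul_of_nonneg_left ?_ hS
    linarith
  have h2 : x ^ (2 - α - 4 * δ / 3) ≤ S * x ^ (ε / 2) * W := by
    have e1 : x ^ (2 - α - 4 * δ / 3)
        ≤ S * W * (2 ^ 16 * ((1 + h * v) + 6 * c * v ^ 3)) := by
      rw [div_le_iff₀ (by positivity)] at h1
      refine h1.trans (le_of_eq ?_)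
      ring
    calc _ ≤ S * W * (2 ^ 16 * ((1 + h * v) + 6 * c * v ^ 3)) := e1
      _ ≤ S * W * x ^ (ε / 2) := mul_le_mul_of_nonneg_left hbig (by positivity)
      _ = _ := by ring
  have h3 : x ^ (2 - α - 4 * δ / 3) = x ^ (2 - α - 4 * δ / 3 - μ - 25 * δ - ε) * x ^ (ε / 2) * W := by
    rw [hW, ← Real.rpow_add hx0, ← Real.rpow_add hx0]
    congr 1
    ring
  have h4 : x ^ (2 - α - 4 * δ / 3 - μ - 25 * δ - ε) ≤ S := by
    rw [h3] at h2
    have e0 : 0 < x ^ (ε / 2) * W := by positivity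
    rw [mul_assoc, mul_assoc] at h2
    exact le_of_mul_le_mul_right h2 e0
  refine le_trans (Real.rpow_le_rpow_of_exponent_le hx ?_) h4
  have h5 : min 1 (2 - α - β / 2) ≤ 2 - α - μ := by
    rw [hμ]
    rcases le_total (1 - α) (β / 2) with h | h
    · rw [max_eq_right h]
      exact min_le_right _ _
    · rw [max_eq_left h]
      exact (min_le_left _ _).trans (by linarith)
  linarith

/-- **Structured choices cover many integers.** -/
theorem structured_aux {α β δ ε : ℝ} (h0 : 0 < α) (h1 : α < 1) (hβ : β < 1)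
    (hδ : 0 ≤ δ) (hε : 0 < ε) (hε1 : ε ≤ 1) :
    ∀ᶠ N : ℕ in atTop, ∀ a : (p : ℕ) → ZMod p, ∀ Q : Finset ℕ, (∀ p ∈ Q, InRange α N p) →
      ∀ (b : ℕ → ℤ) (s : ℕ), 2 * s ≤ N + 2 →
      (∀ p ∈ Q, (((s : ℤ) + b p : ℤ) : ZMod p) = a p) →
      (∀ p ∈ Q, |(b p : ℝ)| ≤ 2 * (N : ℝ) ^ β) →
      (N : ℝ) ^ (3 * α - δ) ≤ (quadruples Q b : ℝ) →
      (N : ℝ) ^ (min 1 (2 - α - β / 2) - 27 * δ - ε) ≤ (coveredCount α N a : ℝ) := by
  classical
  obtain ⟨c₀, hc₀, hdiv⟩ := div_bound hε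
  obtain ⟨h, hh⟩ := exists_nat_gt (2 / α)
  have hh2 : 2 < h * α := by rwa [div_lt_iff₀ h0] at hh
  have hh0 : 0 < h := by
    rcases Nat.eq_zero_or_pos h with h | h
    · rw [h] at hh2
      simp at hh2
      linarith
    · exact h
  set v : ℝ := 2 ^ 52 with hv
  have hd : 0 < 1 - α := by linarith
  filter_upwards [ev_const 64 hd, ev_const 1 h0, eventually_ge_atTop 1,
    ev_const (2 ^ 16 * ((1 + h * v) + 6 * (8 * c₀) * v ^ 3)) (half_pos hε),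
    ev_const 128 (show 0 < 1 - β by linarith)] with N e1 e2 e3 e4 e5
  intro a Q hQ b s hs hab hb hquad
  have hN0 : (0 : ℝ) < N := by exact_mod_cast e3
  have hN1 : (1 : ℝ) ≤ N := by exact_mod_cast e3
  obtain ⟨X, hX⟩ : ∃ X : ℝ, X = (N : ℝ) ^ α := ⟨_, rfl⟩
  obtain ⟨Z, hZ⟩ : ∃ Z : ℝ, Z = (N : ℝ) ^ (1 - α) := ⟨_, rfl⟩
  have hXZ : X * Z = N := by
    rw [hX, hZ, ← Real.rpow_add hN0]
    simp
  have hX1 : 1 ≤ X := by rw [hX]; exact e2
  have hZ64 : 64 ≤ Z := by rw [hZ]; exact e1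
  have hX0 : 0 < X := by linarith
  have hZ0 : 0 < Z := by linarith
  -- the size of `Q`
  have hE3 : (N : ℝ) ^ (3 * α - δ) ≤ (Q.card : ℝ) ^ 3 :=
    hquad.trans (by exact_mod_cast quad_le_cube Q b)
  have hQlow : (N : ℝ) ^ (α - δ / 3) ≤ Q.card := by
    have e : ((N : ℝ) ^ (α - δ / 3)) ^ 3 = (N : ℝ) ^ (3 * α - δ) := by
      rw [← Real.rpow_natCast, ← Real.rpow_mul hN0.le]
      congr 1
      push_cast
      ring
    refine le_of_pow_le_pow_left₀ (n := 3) (by norm_num) (Nat.cast_nonneg _) ?_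
    rw [e]
    exact hE3
  have hQpos : (0 : ℝ) < Q.card := lt_of_lt_of_le (by positivity) hQlow
  have hQne : Q.Nonempty := by
    rw [← card_pos]
    exact_mod_cast hQpos
  have hQcard : (Q.card : ℝ) ≤ 2 * X := by
    rw [hX]
    exact card_range e2 hQ
  have hNδ : 1 ≤ (N : ℝ) ^ δ := Real.one_le_rpow hN1 hδ
  have hE : (Q.card : ℝ) ^ 3 ≤ (8 * (N : ℝ) ^ δ) * quadruples Q b := by
    calc (Q.card : ℝ) ^ 3 ≤ (2 * X) ^ 3 := by gcongr
      _ = 8 * X ^ 3 := by ring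
      _ = 8 * ((N : ℝ) ^ δ * (N : ℝ) ^ (3 * α - δ)) := by
          congr 1
          rw [hX, ← Real.rpow_natCast, ← Real.rpow_mul hN0.le, ← Real.rpow_add hN0]
          congr 1
          push_cast
          ring
      _ ≤ 8 * ((N : ℝ) ^ δ * quadruples Q b) := by gcongr
      _ = _ := by ring
  obtain ⟨R, hRQ, hRne, hR1, hR2⟩ := structured_part hQne (by positivity) hE
  have hR3 : (N : ℝ) ^ (α - 4 * δ / 3) / 64 ≤ (R.card : ℝ) := by
    have e : (N : ℝ) ^ (α - δ / 3) = (N : ℝ) ^ (α - 4 * δ / 3) * (N : ℝ) ^ δ := by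
      rw [← Real.rpow_add hN0]
      congr 1
      ring
    have h2 : (N : ℝ) ^ (α - 4 * δ / 3) * (N : ℝ) ^ δ ≤ (64 * (R.card : ℝ)) * (N : ℝ) ^ δ := by
      rw [← e]
      refine (hQlow.trans hR1).trans (le_of_eq ?_)
      ring
    have h3 := le_of_mul_le_mul_right h2 (by linarith)
    linarith
  obtain ⟨V, hV⟩ : ∃ V : ℝ, V = v * (N : ℝ) ^ (10 * δ) := ⟨_, rfl⟩
  have hV' : ((Gr R b - Gr R b).card : ℝ) ≤ V * R.card := by
    refine hR2.trans (le_of_eq ?_)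
    have e : (N : ℝ) ^ (10 * δ) = ((N : ℝ) ^ δ) ^ 10 := by
      rw [← Real.rpow_natCast, ← Real.rpow_mul hN0.le]
      congr 1
      push_cast
      ring
    rw [hV, hv, e]
    ring
  -- the parameters
  obtain ⟨Y, hY⟩ : ∃ Y : ℕ, Y = ⌈X⌉₊ := ⟨_, rfl⟩
  obtain ⟨L, hL⟩ : ∃ L : ℕ, L = ⌊Z / 16⌋₊ := ⟨_, rfl⟩
  obtain ⟨B, hB⟩ : ∃ B : ℕ, B = ⌊2 * (N : ℝ) ^ β⌋₊ := ⟨_, rfl⟩
  obtain ⟨t, ht⟩ : ∃ t : ℕ, t = ⌈c₀ * (2 * (N : ℝ)) ^ ε⌉₊ := ⟨_, rfl⟩
  have hXY : X ≤ Y := hY ▸ Nat.le_ceil X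
  have hYX : (Y : ℝ) ≤ 2 * X := by
    have := Nat.ceil_lt_add_one hX0.le
    rw [← hY] at this
    linarith
  have hLZ : (L : ℝ) ≤ Z / 16 := hL ▸ Nat.floor_le (by positivity)
  have hLZ2 : Z / 32 + 1 ≤ L := by
    have := Nat.lt_floor_add_one (Z / 16)
    rw [← hL] at this
    linarith
  have hL1 : 1 ≤ L := by
    have : (1 : ℝ) ≤ L := by linarith
    exact_mod_cast this
  have hBβ : (B : ℝ) ≤ 2 * (N : ℝ) ^ β := hB ▸ Nat.floor_le (by positivity)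
  have hNβ : (N : ℝ) ^ β ≤ N / 128 := by
    rw [le_div_iff₀ (by norm_num)]
    calc (N : ℝ) ^ β * 128 ≤ (N : ℝ) ^ β * (N : ℝ) ^ (1 - β) := by gcongr
      _ = N := by
          rw [← Real.rpow_add hN0]
          simp
  have hRr : ∀ p ∈ R, p.Prime ∧ Y ≤ p ∧ p ≤ 2 * Y := by
    intro p hp
    obtain ⟨a1, a2, a3⟩ := hQ p (hRQ hp)
    rw [← hX] at a2 a3
    refine ⟨a1, ?_, ?_⟩
    · rw [hY]
      exact Nat.ceil_le.mpr a2
    · have : (p : ℝ) ≤ ((2 * Y : ℕ) : ℝ) := by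
        push_cast
        linarith
      exact_mod_cast this
  have hRb : ∀ p ∈ R, |b p| ≤ (B : ℤ) := by
    intro p hp
    have h2 : (b p).natAbs ≤ B := by
      rw [hB]
      refine Nat.le_floor ?_
      rw [Nat.cast_natAbs, Int.cast_abs]
      exact hb p (hRQ hp)
    rw [← Int.natCast_natAbs]
    exact_mod_cast h2
  have hcov : ∀ p ∈ R, ∀ l : ℤ, (L : ℤ) ≤ l → l < 2 * L →
      (s : ℤ) + b p + l * p ∈ (Cov (PD α N) a N).image (fun n : ℕ => (n : ℤ)) := by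
    intro p hp l hl1 hl2
    obtain ⟨a1, a2, a3⟩ := hQ p (hRQ hp)
    rw [← hX] at a2 a3
    have hbp := abs_le.mp (hb p (hRQ hp))
    have hsN : 2 * (s : ℝ) ≤ N + 2 := by exact_mod_cast hs
    have hN64 : (64 : ℝ) ≤ N := by
      rw [← hXZ]
      calc (64 : ℝ) = 1 * 64 := by norm_num
        _ ≤ X * Z := by gcongr
    have hs0 : (0 : ℝ) ≤ s := Nat.cast_nonneg _
    have hl1' : (L : ℝ) ≤ l := by exact_mod_cast hl1
    have hl2' : (l : ℝ) ≤ 2 * L := by exact_mod_cast hl2.le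
    have hl0' : (0 : ℝ) ≤ l := le_trans (Nat.cast_nonneg _) hl1'
    have hlp1 : (N : ℝ) / 32 ≤ l * p := by
      calc (N : ℝ) / 32 = (Z / 32) * X := by rw [← hXZ]; ring
        _ ≤ l * p := by
          have : Z / 32 ≤ l := by linarith
          gcongr
    have hlp2 : (l : ℝ) * p ≤ N / 4 := by
      calc (l : ℝ) * p ≤ (Z / 8) * (2 * X) := by
            have e : (l : ℝ) ≤ Z / 8 := by linarith
            gcongr
        _ = N / 4 := by rw [← hXZ]; ring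
    have hn0 : (0 : ℝ) < ((s : ℤ) + b p + l * p : ℤ) := by
      push_cast
      linarith [hbp.1]
    have hn1 : (((s : ℤ) + b p + l * p : ℤ) : ℝ) ≤ N := by
      push_cast
      linarith [hbp.2]
    have hn0' : 0 < (s : ℤ) + b p + l * p := by exact_mod_cast hn0
    have hn1' : (s : ℤ) + b p + l * p ≤ N := by exact_mod_cast hn1
    obtain ⟨n, hn⟩ := Int.eq_ofNat_of_zero_le hn0'.le
    rw [mem_image]
    refine ⟨n, ?_, hn.symm⟩
    rw [Cov, mem_filter, mem_Icc]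
    refine ⟨⟨by omega, by omega⟩, p, mem_PD.mpr (hQ p (hRQ hp)), ?_⟩
    have h3 : ((n : ℤ) : ZMod p) = (((s : ℤ) + b p + l * p : ℤ) : ZMod p) := by rw [hn]
    rw [Int.cast_natCast] at h3
    rw [h3, ← hab p (hRQ hp)]
    push_cast
    simp
  have hh3 : 2 * B + 2 * L * Y < Y ^ h := by
    have h2 : ((2 * B + 2 * L * Y : ℕ) : ℝ) < ((Y ^ h : ℕ) : ℝ) := by
      push_cast
      have a1 : 2 * (B : ℝ) ≤ N / 32 := by linarith
      have a2 : 2 * (L : ℝ) * Y ≤ N / 4 := by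
        calc 2 * (L : ℝ) * Y ≤ 2 * (Z / 16) * (2 * X) := by gcongr
          _ = N / 4 := by rw [← hXZ]; ring
      have a3 : (N : ℝ) ≤ (Y : ℝ) ^ h := by
        calc (N : ℝ) = (N : ℝ) ^ (1 : ℝ) := (Real.rpow_one _).symm
          _ ≤ (N : ℝ) ^ (α * h) := by
              refine Real.rpow_le_rpow_of_exponent_le hN1 ?_
              linarith
          _ = X ^ h := by
              rw [hX, ← Real.rpow_natCast, ← Real.rpow_mul hN0.le]
          _ ≤ (Y : ℝ) ^ h := by gcongr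
      linarith
    exact_mod_cast h2
  have ht2 : (t : ℝ) ≤ 4 * c₀ * (N : ℝ) ^ ε := by
    have a1 : (1 : ℝ) ≤ (2 * (N : ℝ)) ^ ε := Real.one_le_rpow (by linarith) hε.le
    have a2 := Nat.ceil_lt_add_one (show 0 ≤ c₀ * (2 * (N : ℝ)) ^ ε by positivity)
    rw [← ht] at a2
    have a3 : (1 : ℝ) ≤ c₀ * (2 * (N : ℝ)) ^ ε := one_le_mul_of_one_le_of_one_le hc₀ a1
    have a4 : (2 * (N : ℝ)) ^ ε ≤ 2 * (N : ℝ) ^ ε := by
      rw [Real.mul_rpow (by norm_num) hN0.le]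
      refine mul_le_mul_of_nonneg_right ?_ (by positivity)
      calc (2 : ℝ) ^ ε ≤ 2 ^ (1 : ℝ) := Real.rpow_le_rpow_of_exponent_le (by norm_num) hε1
        _ = 2 := Real.rpow_one _
    have a5 : c₀ * (2 * (N : ℝ)) ^ ε ≤ c₀ * (2 * (N : ℝ) ^ ε) := by gcongr
    linarith
  have ht1 : 1 ≤ t := by
    rw [ht]
    exact Nat.one_le_ceil_iff.mpr (by positivity)
  have htd : ∀ z : ℕ, 1 ≤ z → z ≤ 2 * B → z.divisors.card ≤ t := by
    intro z hz1 hz2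
    have hz3 : (z : ℝ) ≤ 2 * N := by
      have : (z : ℝ) ≤ 2 * B := by exact_mod_cast hz2
      linarith
    have a1 : (z.divisors.card : ℝ) ≤ t := by
      rw [ht]
      refine le_trans ?_ (Nat.le_ceil _)
      refine (hdiv z hz1).trans ?_
      gcongr
    exact_mod_cast a1
  have hHB : 2 * B < L * (2 * B / L + 1) := Nat.lt_mul_div_succ (2 * B) hL1
  obtain ⟨T, hT0, hT1, hT2⟩ := finite_bound hRne hRr hRb hcov hV' hh3 htd ht1 hL1 hHB
  rw [card_image_of_injective _ Nat.cast_injective, ← coveredCount_eq] at hT2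
  have hv1 : 1 ≤ v := by rw [hv]; norm_num
  have hV0 : 0 ≤ V ^ 5 := by rw [hV]; positivity
  refine final_step (h := h) (c := 8 * c₀) (v := v) (V := V) (T := T) (q := R.card) (L := L)
    hN1 h1 hδ hε (by linarith) hv1 (Nat.cast_nonneg _) hR3 hV ?_ ?_ ?_ hT2 e4
  · rw [← hZ]
    linarith
  · rw [← hZ]
    linarith
  · have a1 : (L : ℝ) * (2 * B / L : ℕ) ≤ 2 * B := by
      have := Nat.mul_div_le (2 * B) L
      exact_mod_cast this
    have a2 : (N : ℝ) ^ β ≤ (N : ℝ) ^ max β (1 - α) :=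
      Real.rpow_le_rpow_of_exponent_le hN1 (le_max_left _ _)
    have a3 : Z ≤ (N : ℝ) ^ max β (1 - α) := by
      rw [hZ]
      exact Real.rpow_le_rpow_of_exponent_le hN1 (le_max_right _ _)
    have a4 : (L : ℝ) * (4 * (2 * B / L : ℕ) + 1) ≤ 18 * (N : ℝ) ^ max β (1 - α) := by
      linarith
    calc T ^ 2 ≤ L * (3 * t * ((4 * (2 * B / L : ℕ) + 1) * V ^ 5)) := hT1
      _ = 3 * t * (L * (4 * (2 * B / L : ℕ) + 1)) * V ^ 5 := by ring
      _ ≤ 3 * (4 * c₀ * (N : ℝ) ^ ε) * (18 * (N : ℝ) ^ max β (1 - α)) * V ^ 5 := by gcongr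
      _ = _ := by ring

lemma covered_reflect (α : ℝ) (N : ℕ) (a : (p : ℕ) → ZMod p) :
    coveredCount α N a = coveredCount α N (fun p => ((N + 1 : ℕ) : ZMod p) - a p) := by
  classical
  rw [coveredCount_eq, coveredCount_eq]
  refine card_bij' (fun n _ => N + 1 - n) (fun n _ => N + 1 - n) ?_ ?_ ?_ ?_
  · intro n hn
    rw [Cov, mem_filter, mem_Icc] at hn
    obtain ⟨⟨h1, h2⟩, p, hp, h3⟩ := hn
    rw [Cov, mem_filter, mem_Icc]
    refine ⟨⟨by omega, by omega⟩, p, hp, ?_⟩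
    rw [Nat.cast_sub (by omega), h3]
  · intro n hn
    rw [Cov, mem_filter, mem_Icc] at hn
    obtain ⟨⟨h1, h2⟩, p, hp, h3⟩ := hn
    rw [Cov, mem_filter, mem_Icc]
    refine ⟨⟨by omega, by omega⟩, p, hp, ?_⟩
    rw [Nat.cast_sub (by omega), h3]
    ring
  · intro n hn
    rw [Cov, mem_filter, mem_Icc] at hn
    omega
  · intro n hn
    rw [Cov, mem_filter, mem_Icc] at hn
    omega

lemma quadruples_neg (Q : Finset ℕ) (b : ℕ → ℤ) :
    quadruples Q (fun p => -b p) = quadruples Q b := by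
  rw [quadruples, quadruples]
  congr 1
  refine filter_congr fun x _ => and_congr_right fun _ => ?_
  constructor <;> intro h <;> linarith

/-- **Structured choices cover many integers**, with any base point `s ≤ N`. -/
theorem structured {α β δ ε : ℝ} (h0 : 0 < α) (h1 : α < 1) (hβ : β < 1)
    (hδ : 0 ≤ δ) (hε : 0 < ε) :
    ∀ᶠ N : ℕ in atTop, ∀ a : (p : ℕ) → ZMod p, ∀ Q : Finset ℕ, (∀ p ∈ Q, InRange α N p) →
      ∀ (b : ℕ → ℤ) (s : ℕ), s ≤ N →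
      (∀ p ∈ Q, (((s : ℤ) + b p : ℤ) : ZMod p) = a p) →
      (∀ p ∈ Q, |(b p : ℝ)| ≤ 2 * (N : ℝ) ^ β) →
      (N : ℝ) ^ (3 * α - δ) ≤ (quadruples Q b : ℝ) →
      (N : ℝ) ^ (min 1 (2 - α - β / 2) - 27 * δ - ε) ≤ (coveredCount α N a : ℝ) := by
  filter_upwards [structured_aux h0 h1 hβ hδ (lt_min hε one_pos) (min_le_right ε 1),
    eventually_ge_atTop 1] with N h hN
  intro a Q hQ b s hs hab hb hquad
  have hN1 : (1 : ℝ) ≤ N := by exact_mod_cast hN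
  refine le_trans (Real.rpow_le_rpow_of_exponent_le hN1
    (sub_le_sub_left (min_le_left ε 1) _)) ?_
  rcases Nat.lt_or_ge (N + 2) (2 * s) with h2 | h2
  · rw [covered_reflect]
    refine h _ Q hQ (fun p => -b p) (N + 1 - s) (by omega) ?_ ?_ ?_
    · intro p hp
      rw [← hab p hp]
      push_cast [Nat.cast_sub (show s ≤ N + 1 by omega)]
      ring
    · intro p hp
      push_cast
      rw [abs_neg]
      exact hb p hp
    · rw [quadruples_neg]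
      exact hquad
  · exact h a Q hQ b s h2 hab hb hquad

/-- **Choices covering few integers have few additive quadruples.** -/
theorem few_quadruples {α ε : ℝ} (h0 : 0 < α) (h1 : α < 1) (hε : 0 < ε) :
    ∀ᶠ N : ℕ in atTop, ∀ a : (p : ℕ) → ZMod p,
      (coveredCount α N a : ℝ) < (N : ℝ) ^ (min 1 (2 - 3 * α / 2) - ε) →
      ∀ Q : Finset ℕ, (∀ p ∈ Q, InRange α N p) → ∀ s : ℕ, s ≤ N →
      (quadruples Q (fun p => ((a p - (s : ZMod p)).val : ℤ)) : ℝ)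
        < (N : ℝ) ^ (3 * α - ε / 28) := by
  filter_upwards [structured (β := α) h0 h1 h1 (show 0 ≤ ε / 28 by positivity)
    (show 0 < ε / 28 by positivity)] with N h
  intro a hcov Q hQ s hs
  by_contra hcon
  push Not at hcon
  refine absurd (h a Q hQ _ s hs ?_ ?_ hcon) ?_
  · intro p hp
    have : NeZero p := ⟨(hQ p hp).1.ne_zero⟩
    push_cast
    rw [ZMod.natCast_zmod_val]
    ring
  · intro p hp
    have : NeZero p := ⟨(hQ p hp).1.ne_zero⟩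
    have h2 := ZMod.val_lt (a p - (s : ZMod p))
    have h3 : ((a p - (s : ZMod p)).val : ℝ) ≤ p := by exact_mod_cast h2.le
    rw [Int.cast_natCast, abs_of_nonneg (Nat.cast_nonneg _)]
    linarith [(hQ p hp).2.2]
  · push Not
    have e : min 1 (2 - α - α / 2) - 27 * (ε / 28) - ε / 28 = min 1 (2 - 3 * α / 2) - ε := by
      have e2 : 2 - α - α / 2 = 2 - 3 * α / 2 := by ring
      rw [e2]
      ring
    rw [e]
    exact hcov

end Pool.Agent.V7H62.AC
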