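import Pool.Agent.V7H62.AC.Asy

/-!
# Choices given by integer parts of piecewise linear functions of fractional parts
-/

set_option autoImplicit false

open Finset Filter Topology
open scoped Pointwise

namespace Pool.Agent.V7H62.AC

open Pool.Agent.H170R2.PC

/-- pairs with the same value -/
lemma sq_card_le_fiber' {ι κ : Type*} [DecidableEq ι] [DecidableEq κ] (P : Finset ι) (f : ι → κ)
    (t : Finset κ) (hf : ∀ x ∈ P, f x ∈ t) :
    P.card ^ 2 ≤ t.card * ((P ×ˢ P).filter fun x => f x.1 = f x.2).card := by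
  have h1 : P.card = ∑ y ∈ t, (P.filter fun x => f x = y).card :=
    card_eq_sum_card_fiberwise hf
  have h2 : ((P ×ˢ P).filter fun x => f x.1 = f x.2).card
      = ∑ y ∈ t, (P.filter fun x => f x = y).card ^ 2 := by
    rw [card_eq_sum_card_fiberwise (f := fun x : ι × ι => f x.1) (t := t)]
    · refine sum_congr rfl fun y hy => ?_
      rw [sq, ← card_product]
      congr 1
      ext ⟨u, v⟩
      simp only [mem_filter, mem_product]
      constructor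
      · rintro ⟨⟨⟨hu, hv⟩, h⟩, h'⟩
        exact ⟨⟨hu, h'⟩, hv, by rw [← h, h']⟩
      · rintro ⟨⟨hu, h⟩, hv, h'⟩
        exact ⟨⟨⟨hu, hv⟩, by rw [h, h']⟩, h⟩
    · intro x hx
      have := mem_filter.mp hx
      exact hf _ (mem_product.mp this.1).1
  rw [h2, h1]
  exact sq_sum_le_card_mul_sum_sq

lemma quad_ge (Q : Finset ℕ) (b : ℕ → ℤ) (t : Finset (ℤ × ℤ))
    (ht : ∀ p ∈ Q, ∀ q ∈ Q, ((p : ℤ) - q, b p - b q) ∈ t) :
    Q.card ^ 4 ≤ t.card * quadruples Q b := by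
  classical
  have h1 := sq_card_le_fiber' (Q ×ˢ Q) (fun x : ℕ × ℕ => ((x.1 : ℤ) - x.2, b x.1 - b x.2)) t (by
    rintro ⟨p, q⟩ hx
    obtain ⟨hp, hq⟩ := mem_product.mp hx
    exact ht p hp q hq)
  rw [card_product] at h1
  have h2 : (((Q ×ˢ Q) ×ˢ (Q ×ˢ Q)).filter fun x : (ℕ × ℕ) × (ℕ × ℕ) =>
      ((x.1.1 : ℤ) - x.1.2, b x.1.1 - b x.1.2) = ((x.2.1 : ℤ) - x.2.2, b x.2.1 - b x.2.2)).card
      ≤ quadruples Q b := by
    rw [quadruples]
    refine card_le_card_of_injOn (fun x : (ℕ × ℕ) × (ℕ × ℕ) =>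
      ((x.1.1, x.2.2), (x.2.1, x.1.2))) ?_ ?_
    · rintro ⟨⟨p, q⟩, ⟨r, u⟩⟩ hx
      rw [mem_coe, mem_filter, mem_product, mem_product, mem_product] at hx
      obtain ⟨⟨⟨h1, h2⟩, ⟨h3, h4⟩⟩, h5⟩ := hx
      simp only [Prod.mk.injEq] at h1 h2 h3 h4 h5
      rw [mem_coe, mem_filter, mem_product, mem_product, mem_product]
      refine ⟨⟨⟨h1, h4⟩, ⟨h3, h2⟩⟩, ?_, ?_⟩
      · simp only
        have : (p : ℤ) + u = r + q := by linarith [h5.1]
        exact_mod_cast this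
      · simp only
        linarith [h5.2]
    · rintro ⟨⟨p, q⟩, ⟨r, u⟩⟩ hx ⟨⟨p', q'⟩, ⟨r', u'⟩⟩ hx' he
      simp only [Prod.mk.injEq] at he ⊢
      exact ⟨⟨he.1.1, he.2.2⟩, he.2.1, he.1.2⟩
  calc Q.card ^ 4 = (Q.card * Q.card) ^ 2 := by ring
    _ ≤ _ := h1
    _ ≤ _ := Nat.mul_le_mul_left _ h2

/-- A piecewise linear function of the fractional parts of `θᵢ p + φᵢ`. -/
noncomputable def bracket {m : ℕ} (γ ϑ : ℝ) (c θ φ : Fin m → ℝ) (p : ℕ) : ℝ :=
  γ + ϑ * p + ∑ i, c i * Int.fract (θ i * p + φ i)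

lemma fract_sub (x y : ℝ) : ∃ e : Bool,
    Int.fract x - Int.fract y = Int.fract (x - y) - (if e then 1 else 0) := by
  have h1 := Int.fract_nonneg x
  have h2 := Int.fract_lt_one x
  have h3 := Int.fract_nonneg y
  have h4 := Int.fract_lt_one y
  by_cases h : Int.fract y ≤ Int.fract x
  · refine ⟨false, ?_⟩
    have : Int.fract (x - y) = Int.fract x - Int.fract y := by
      rw [Int.fract_eq_iff]
      refine ⟨by linarith, by linarith, ⌊x⌋ - ⌊y⌋, ?_⟩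
      push_cast
      rw [Int.fract, Int.fract]
      ring
    simp [this]
  · refine ⟨true, ?_⟩
    have : Int.fract (x - y) = Int.fract x - Int.fract y + 1 := by
      rw [Int.fract_eq_iff]
      refine ⟨by linarith, by linarith, ⌊x⌋ - ⌊y⌋ - 1, ?_⟩
      push_cast
      rw [Int.fract, Int.fract]
      ring
    simp [this]

lemma floor_sub (x y : ℝ) : ∃ j : Bool, ⌊x⌋ - ⌊y⌋ = ⌊x - y⌋ + (if j then 1 else 0) := by
  have h1 := Int.floor_le x
  have h2 := Int.lt_floor_add_one x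
  have h3 := Int.floor_le y
  have h4 := Int.lt_floor_add_one y
  by_cases h : Int.fract y ≤ Int.fract x
  · refine ⟨false, ?_⟩
    have : ⌊x - y⌋ = ⌊x⌋ - ⌊y⌋ := by
      rw [Int.floor_eq_iff]
      rw [Int.fract, Int.fract] at h
      push_cast
      constructor <;> linarith
    simp [this]
  · refine ⟨true, ?_⟩
    have : ⌊x - y⌋ = ⌊x⌋ - ⌊y⌋ - 1 := by
      rw [Int.floor_eq_iff]
      rw [Int.fract, Int.fract] at h
      push_cast
      push Not at h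
      constructor <;> linarith
    simp [this]

/-- the possible differences -/
noncomputable def diffs {m : ℕ} (ϑ : ℝ) (c θ : Fin m → ℝ) (Y : ℕ) : Finset (ℤ × ℤ) := by
  classical
  exact (Icc (-(Y : ℤ)) Y ×ˢ ((univ : Finset (Fin m → Bool)) ×ˢ (univ : Finset Bool))).image
    fun x : ℤ × (Fin m → Bool) × Bool => (x.1,
      ⌊ϑ * x.1 + ∑ i, c i * (Int.fract (θ i * x.1) - (if x.2.1 i then 1 else 0))⌋
        + (if x.2.2 then 1 else 0))

lemma card_diffs {m : ℕ} (ϑ : ℝ) (c θ : Fin m → ℝ) (Y : ℕ) :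
    (diffs ϑ c θ Y).card ≤ (2 * Y + 1) * (2 ^ m * 2) := by
  classical
  rw [diffs]
  refine card_image_le.trans ?_
  rw [card_product, card_product, Int.card_Icc, card_univ, card_univ, Fintype.card_fun,
    Fintype.card_bool, Fintype.card_fin]
  refine Nat.mul_le_mul_right _ ?_
  omega

lemma mem_diffs {m : ℕ} (γ ϑ : ℝ) (c θ φ : Fin m → ℝ) {Y p q : ℕ} (hp : Y ≤ p) (hp2 : p ≤ 2 * Y)
    (hq : Y ≤ q) (hq2 : q ≤ 2 * Y) :
    ((p : ℤ) - q, ⌊bracket γ ϑ c θ φ p⌋ - ⌊bracket γ ϑ c θ φ q⌋) ∈ diffs ϑ c θ Y := by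
  classical
  obtain ⟨j, hj⟩ := floor_sub (bracket γ ϑ c θ φ p) (bracket γ ϑ c θ φ q)
  have hch : ∀ i : Fin m, ∃ e : Bool, Int.fract (θ i * p + φ i) - Int.fract (θ i * q + φ i)
      = Int.fract (θ i * ((p : ℤ) - q : ℤ)) - (if e then 1 else 0) := by
    intro i
    obtain ⟨e, he⟩ := fract_sub (θ i * p + φ i) (θ i * q + φ i)
    refine ⟨e, ?_⟩
    rw [he]
    congr 2
    push_cast
    ring
  choose e he using hch
  rw [diffs, mem_image]
  refine ⟨((p : ℤ) - q, e, j), ?_, ?_⟩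
  · rw [mem_product, mem_product, mem_Icc]
    refine ⟨⟨by omega, by omega⟩, mem_univ _, mem_univ _⟩
  · simp only [Prod.mk.injEq, true_and]
    rw [hj]
    congr 2
    rw [bracket, bracket]
    have h1 : ∑ i, c i * (Int.fract (θ i * ((p : ℤ) - q : ℤ)) - (if e i then 1 else 0))
        = ∑ i, c i * Int.fract (θ i * p + φ i) - ∑ i, c i * Int.fract (θ i * q + φ i) := by
      rw [← sum_sub_distrib]
      refine sum_congr rfl fun i _ => ?_
      rw [← he i]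
      ring
    rw [h1]
    push_cast
    ring

/-- **Integer parts of piecewise linear functions of fractional parts.** -/
theorem bracket_choices {α β ε : ℝ} (h0 : 0 < α) (h1 : α < 1) (hβ : β < 1) (hε : 0 < ε) (m : ℕ) :
    ∀ᶠ N : ℕ in atTop, ∀ a : (p : ℕ) → ZMod p, ∀ Q : Finset ℕ, (∀ p ∈ Q, InRange α N p) →
      (N : ℝ) ^ (α - ε / 280) ≤ (Q.card : ℝ) →
      ∀ (γ ϑ : ℝ) (c θ φ : Fin m → ℝ) (s : ℕ), s ≤ N →
      (∀ p ∈ Q, (((s : ℤ) + ⌊bracket γ ϑ c θ φ p⌋ : ℤ) : ZMod p) = a p) →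
      (∀ p ∈ Q, |(⌊bracket γ ϑ c θ φ p⌋ : ℝ)| ≤ 2 * (N : ℝ) ^ β) →
      (N : ℝ) ^ (min 1 (2 - α - β / 2) - ε) ≤ (coveredCount α N a : ℝ) := by
  filter_upwards [structured (β := β) h0 h1 hβ (show 0 ≤ ε / 56 by positivity)
    (show 0 < ε / 2 by positivity), ev_const (10 * 2 ^ m) (show 0 < ε / 280 by positivity),
    eventually_ge_atTop 1, ev_const 1 h0] with N h e1 e2 e3
  intro a Q hQ hcard γ ϑ c θ φ s hs hab hb
  have hN1 : (1 : ℝ) ≤ N := by exact_mod_cast e2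
  have hN0 : (0 : ℝ) < N := by linarith
  refine le_trans (Real.rpow_le_rpow_of_exponent_le hN1 ?_)
    (h a Q hQ (fun p => ⌊bracket γ ϑ c θ φ p⌋) s hs hab hb ?_)
  · linarith
  · obtain ⟨X, hX⟩ : ∃ X : ℝ, X = (N : ℝ) ^ α := ⟨_, rfl⟩
    obtain ⟨Y, hY⟩ : ∃ Y : ℕ, Y = ⌈X⌉₊ := ⟨_, rfl⟩
    have hX1 : 1 ≤ X := by rw [hX]; exact e3
    have hXY : X ≤ Y := hY ▸ Nat.le_ceil X
    have hYX : (Y : ℝ) ≤ 2 * X := by
      have := Nat.ceil_lt_add_one (show 0 ≤ X by linarith)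
      rw [← hY] at this
      linarith
    have hr : ∀ p ∈ Q, Y ≤ p ∧ p ≤ 2 * Y := by
      intro p hp
      obtain ⟨a1, a2, a3⟩ := hQ p hp
      rw [← hX] at a2 a3
      refine ⟨?_, ?_⟩
      · rw [hY]
        exact Nat.ceil_le.mpr a2
      · have : (p : ℝ) ≤ ((2 * Y : ℕ) : ℝ) := by
          push_cast
          linarith
        exact_mod_cast this
    have hq := quad_ge Q (fun p => ⌊bracket γ ϑ c θ φ p⌋) (diffs ϑ c θ Y) (by
      intro p hp q hq
      exact mem_diffs γ ϑ c θ φ (hr p hp).1 (hr p hp).2 (hr q hq).1 (hr q hq).2)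
    obtain ⟨E, hE⟩ : ∃ E : ℕ, E = quadruples Q (fun p => ⌊bracket γ ϑ c θ φ p⌋) := ⟨_, rfl⟩
    rw [← hE] at hq ⊢
    have hq2 : (Q.card : ℝ) ^ 4 ≤ (10 * 2 ^ m * X) * E := by
      have a1 : (Q.card : ℝ) ^ 4 ≤ ((diffs ϑ c θ Y).card : ℝ) * E := by exact_mod_cast hq
      have a2 : ((diffs ϑ c θ Y).card : ℝ) ≤ (2 * Y + 1) * (2 ^ m * 2) := by
        exact_mod_cast card_diffs ϑ c θ Y
      refine a1.trans (mul_le_mul_of_nonneg_right (a2.trans ?_) (Nat.cast_nonneg _))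
      calc (2 * (Y : ℝ) + 1) * (2 ^ m * 2) ≤ (2 * (2 * X) + X) * (2 ^ m * 2) := by gcongr
        _ = _ := by ring
    have hpow : (N : ℝ) ^ (3 * α - ε / 56) * ((N : ℝ) ^ (ε / 280) * X) ≤ (Q.card : ℝ) ^ 4 := by
      calc (N : ℝ) ^ (3 * α - ε / 56) * ((N : ℝ) ^ (ε / 280) * X)
          = ((N : ℝ) ^ (α - ε / 280)) ^ 4 := by
            rw [hX, ← Real.rpow_add hN0, ← Real.rpow_add hN0, ← Real.rpow_natCast,
              ← Real.rpow_mul hN0.le]
            congr 1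
            push_cast
            ring
        _ ≤ (Q.card : ℝ) ^ 4 := by gcongr
    have h3 : (N : ℝ) ^ (3 * α - ε / 56) * ((N : ℝ) ^ (ε / 280) * X)
        ≤ E * ((N : ℝ) ^ (ε / 280) * X) := by
      refine hpow.trans (hq2.trans ?_)
      calc (10 * 2 ^ m * X) * (E : ℝ) ≤ ((N : ℝ) ^ (ε / 280) * X) * E := by gcongr
        _ = _ := by ring
    exact le_of_mul_le_mul_right h3 (by positivity)

end Pool.Agent.V7H62.AC
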