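import Pool.Agent.TH539.CovS

/-!
# Additively structured choices of residue classes: the finite inequality
-/

set_option autoImplicit false

open Finset
open scoped Pointwise

namespace Pool.Agent.V7H62.AC

open Pool.Agent.H170R2.PC

/-- the graph of `b` over `Q` -/
def Gr (Q : Finset ℕ) (b : ℕ → ℤ) : Finset (ℤ × ℤ) :=
  Q.image fun p : ℕ => ((p : ℤ), b p)

/-- the elements of `D` on the line of slope `-l` -/
def Ml (D : Finset (ℤ × ℤ)) (l : ℤ) : Finset (ℤ × ℤ) :=
  D.filter fun x => x.1 ≠ 0 ∧ x.2 = -l * x.1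

lemma Gr_inj (Q : Finset ℕ) (b : ℕ → ℤ) :
    Set.InjOn (fun p : ℕ => ((p : ℤ), b p)) (Q : Set ℕ) := by
  intro p _ q _ h
  have := congrArg Prod.fst h
  simpa using this

lemma card_Gr (Q : Finset ℕ) (b : ℕ → ℤ) : (Gr Q b).card = Q.card :=
  card_image_of_injOn (Gr_inj Q b)

lemma mem_Gr {Q : Finset ℕ} {b : ℕ → ℤ} {p : ℕ} (hp : p ∈ Q) : ((p : ℤ), b p) ∈ Gr Q b :=
  mem_image_of_mem _ hp

lemma mem_D {Q : Finset ℕ} {b : ℕ → ℤ} {p q : ℕ} (hp : p ∈ Q) (hq : q ∈ Q) :
    ((p : ℤ) - q, b p - b q) ∈ Gr Q b - Gr Q b := by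
  have := sub_mem_sub (mem_Gr (b := b) hp) (mem_Gr (b := b) hq)
  simpa using this

/-- the number of coincidences -/
lemma pairs_le {Q : Finset ℕ} {b : ℕ → ℤ} {S : Finset ℤ} {s : ℤ} {Y h : ℕ}
    (hQ : ∀ p ∈ Q, p.Prime ∧ Y ≤ p)
    (hz : ∀ x ∈ Gr Q b - Gr Q b, ∀ l ∈ S, (x.2 + l * x.1).natAbs < Y ^ h) :
    (((Q ×ˢ S) ×ˢ (Q ×ˢ S)).filter fun x : (ℕ × ℤ) × (ℕ × ℤ) =>
      s + b x.1.1 + x.1.2 * x.1.1 = s + b x.2.1 + x.2.2 * x.2.1).card
      ≤ S.card * Q.card + (∑ l ∈ S, (Ml (Gr Q b - Gr Q b) l).card) * Q.card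
        + (Gr Q b - Gr Q b).card * S.card * h := by
  classical
  set D := Gr Q b - Gr Q b with hD
  set TA : Finset ((ℤ × ℤ) × ℤ × ℕ) := ({0} : Finset (ℤ × ℤ)) ×ˢ (S ×ˢ Q) with hTA
  set TB : Finset ((ℤ × ℤ) × ℤ × ℕ) :=
    S.biUnion fun l => (Ml D l) ×ˢ (({l} : Finset ℤ) ×ˢ Q) with hTB
  set TC : Finset ((ℤ × ℤ) × ℤ × ℕ) :=
    ((D ×ˢ S).filter fun y : (ℤ × ℤ) × ℤ => y.1.2 + y.2 * y.1.1 ≠ 0).biUnion fun y =>
      ({y.1} : Finset (ℤ × ℤ)) ×ˢ (({y.2} : Finset ℤ) ×ˢ
        (Q.filter fun q : ℕ => (q : ℤ) ∣ y.1.2 + y.2 * y.1.1)) with hTC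
  have hA : TA.card = S.card * Q.card := by
    rw [hTA, card_product, card_product, card_singleton, one_mul]
  have hB : TB.card ≤ (∑ l ∈ S, (Ml D l).card) * Q.card := by
    refine card_biUnion_le.trans ?_
    rw [sum_mul]
    refine sum_le_sum fun l _ => ?_
    rw [card_product, card_product, card_singleton, one_mul]
  have hC : TC.card ≤ D.card * S.card * h := by
    refine card_biUnion_le.trans ?_
    calc _ ≤ ∑ y ∈ (D ×ˢ S).filter (fun y : (ℤ × ℤ) × ℤ => y.1.2 + y.2 * y.1.1 ≠ 0), h := by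
          refine sum_le_sum fun y hy => ?_
          rw [mem_filter, mem_product] at hy
          rw [card_product, card_product, card_singleton, card_singleton, one_mul, one_mul]
          exact Pool.Agent.TH539.CovS.card_prime_dvd hQ hy.2 (hz _ hy.1.1 _ hy.1.2)
      _ = ((D ×ˢ S).filter (fun y : (ℤ × ℤ) × ℤ => y.1.2 + y.2 * y.1.1 ≠ 0)).card * h := by
          rw [sum_const, smul_eq_mul]
      _ ≤ (D ×ˢ S).card * h := Nat.mul_le_mul_right _ (card_filter_le _ _)
      _ = _ := by rw [card_product]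
  refine le_trans ?_ (add_le_add (add_le_add hA.le hB) hC)
  refine le_trans ?_ ((card_union_le _ _).trans (Nat.add_le_add_right (card_union_le _ _) _))
  refine card_le_card_of_injOn (fun x : (ℕ × ℤ) × (ℕ × ℤ) =>
    ((((x.1.1 : ℤ) - x.2.1, b x.1.1 - b x.2.1), x.1.2, x.2.1) : (ℤ × ℤ) × ℤ × ℕ)) ?_ ?_
  · rintro ⟨⟨p, l⟩, ⟨q, k⟩⟩ hx
    rw [mem_coe, mem_filter, mem_product, mem_product, mem_product] at hx
    obtain ⟨⟨⟨hp, hl⟩, ⟨hq, hk⟩⟩, he⟩ := hx
    simp only at hp hl hq hk he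
    have hmem := mem_D (b := b) hp hq
    rw [← hD] at hmem
    have hkey : (b p - b q) + l * ((p : ℤ) - q) = (k - l) * q := by linear_combination he
    rw [mem_coe, mem_union, mem_union]
    by_cases h0 : (b p - b q) + l * ((p : ℤ) - q) = 0
    · left
      by_cases h1 : (p : ℤ) - q = 0
      · left
        have h2 : b p - b q = 0 := by
          rw [h1, mul_zero, add_zero] at h0
          exact h0
        rw [hTA, mem_product, mem_product, mem_singleton]
        refine ⟨?_, hl, hq⟩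
        simp only [h1, h2]
        rfl
      · right
        rw [hTB, mem_biUnion]
        refine ⟨l, hl, ?_⟩
        rw [mem_product, mem_product, mem_singleton, Ml, mem_filter]
        refine ⟨⟨hmem, h1, ?_⟩, rfl, hq⟩
        simp only
        linear_combination h0
    · right
      rw [hTC, mem_biUnion]
      refine ⟨(((p : ℤ) - q, b p - b q), l), ?_, ?_⟩
      · rw [mem_filter, mem_product]
        exact ⟨⟨hmem, hl⟩, h0⟩
      · rw [mem_product, mem_product, mem_singleton, mem_singleton, mem_filter]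
        refine ⟨rfl, rfl, hq, ?_⟩
        simp only
        rw [hkey]
        exact Dvd.intro_left _ rfl
  · rintro ⟨⟨p, l⟩, ⟨q, k⟩⟩ hx ⟨⟨p', l'⟩, ⟨q', k'⟩⟩ hx' heq
    rw [mem_coe, mem_filter, mem_product, mem_product, mem_product] at hx hx'
    obtain ⟨⟨⟨hp, hl⟩, ⟨hq, hk⟩⟩, he⟩ := hx
    obtain ⟨⟨⟨hp', hl'⟩, ⟨hq', hk'⟩⟩, he'⟩ := hx'
    simp only [Prod.mk.injEq] at heq hp hl hq hk he hp' hl' hq' hk' he' ⊢
    obtain ⟨⟨e1, e2⟩, e3, e4⟩ := heq
    subst e4 e3
    have e5 : (p : ℤ) = p' := by linarith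
    have e6 : p = p' := by exact_mod_cast e5
    subst e6
    refine ⟨⟨rfl, rfl⟩, rfl, ?_⟩
    have hq0 : (q : ℤ) ≠ 0 := by exact_mod_cast (hQ q hq).1.ne_zero
    have e7 : k * (q : ℤ) = k' * q := by linear_combination he' - he
    exact mul_right_cancel₀ hq0 e7

/-- fibers of `2 D` over the first coordinate -/
lemma fiber_le {G : Finset (ℤ × ℤ)} (hG : G.Nonempty)
    (hinj : ∀ x ∈ G, ∀ y ∈ G, x.1 = y.1 → x = y) {V : ℝ}
    (hV : ((G - G).card : ℝ) ≤ V * G.card) (u : ℤ) :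
    (((((G - G) + (G - G)).filter fun w => w.1 = u).card : ℕ) : ℝ) ≤ V ^ 5 := by
  classical
  set E := (G - G) + (G - G) with hE
  set F := E.filter fun w => w.1 = u with hF
  have h1 : G.card * F.card ≤ (3 • G - 2 • G).card := by
    rw [← card_product]
    refine card_le_card_of_injOn (fun x : (ℤ × ℤ) × (ℤ × ℤ) => x.1 + x.2) ?_ ?_
    · rintro ⟨g, w⟩ hx
      rw [mem_coe, mem_product] at hx
      obtain ⟨hg, hw⟩ := hx
      simp only at hg hw
      rw [hF, mem_filter] at hw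
      obtain ⟨x, hx, y, hy, hxy⟩ := mem_add.mp hw.1
      obtain ⟨x1, hx1, x2, hx2, hxx⟩ := mem_sub.mp hx
      obtain ⟨y1, hy1, y2, hy2, hyy⟩ := mem_sub.mp hy
      rw [mem_coe]
      refine mem_sub.mpr ⟨g + x1 + y1, ?_, x2 + y2, ?_, ?_⟩
      · rw [succ_nsmul, two_nsmul]
        exact add_mem_add (add_mem_add hg hx1) hy1
      · rw [two_nsmul]
        exact add_mem_add hx2 hy2
      · simp only
        rw [← hxy, ← hxx, ← hyy]
        abel
    · rintro ⟨g, w⟩ hx ⟨g', w'⟩ hx' he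
      rw [mem_coe, mem_product] at hx hx'
      obtain ⟨hg, hw⟩ := hx
      obtain ⟨hg', hw'⟩ := hx'
      simp only at hg hw hg' hw' he
      rw [hF, mem_filter] at hw hw'
      have e1 := congrArg Prod.fst he
      simp only [Prod.fst_add] at e1
      rw [hw.2, hw'.2] at e1
      have e2 : g = g' := hinj g hg g' hg' (by linarith)
      subst e2
      have e3 : w = w' := add_left_cancel he
      rw [e3]
  have hpl := pluennecke_ruzsa_inequality_nsmul_sub_nsmul_sub hG G 3 2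
  have hpl' : (((3 • G - 2 • G).card : ℕ) : ℝ)
      ≤ (((G - G).card : ℝ) / (G.card : ℝ)) ^ (3 + 2) * (G.card : ℝ) := by
    have h := (NNRat.cast_le (K := ℝ)).mpr hpl
    push_cast at h
    exact h
  have hG0 : (0 : ℝ) < G.card := by exact_mod_cast hG.card_pos
  have hr : ((G - G).card : ℝ) / (G.card : ℝ) ≤ V := by
    rw [div_le_iff₀ hG0]
    exact hV
  have h2 : (G.card : ℝ) * (F.card : ℝ) ≤ V ^ 5 * G.card := by
    calc (G.card : ℝ) * (F.card : ℝ) ≤ (((3 • G - 2 • G).card : ℕ) : ℝ) := by exact_mod_cast h1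
      _ ≤ _ := hpl'
      _ ≤ V ^ 5 * G.card := by
          refine mul_le_mul_of_nonneg_right ?_ hG0.le
          exact pow_le_pow_left₀ (by positivity) hr _
  nlinarith

/-- integer divisors -/
lemma intdiv_card {z : ℤ} (hz : z ≠ 0) (S : Finset ℤ) (hS : ∀ h ∈ S, h ∣ z) :
    S.card ≤ 2 * z.natAbs.divisors.card := by
  classical
  have hsub : S ⊆ (z.natAbs.divisors.image fun d : ℕ => (d : ℤ)) ∪
      (z.natAbs.divisors.image fun d : ℕ => -(d : ℤ)) := by
    intro h hh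
    have h1 : h.natAbs ∈ z.natAbs.divisors := by
      rw [Nat.mem_divisors]
      exact ⟨Int.natAbs_dvd_natAbs.mpr (hS h hh), by simpa using hz⟩
    rw [mem_union, mem_image, mem_image]
    rcases le_total 0 h with h2 | h2
    · left
      exact ⟨h.natAbs, h1, by omega⟩
    · right
      exact ⟨h.natAbs, h1, by omega⟩
  refine (card_le_card hsub).trans ((card_union_le _ _).trans ?_)
  have := card_image_le (s := z.natAbs.divisors) (f := fun d : ℕ => (d : ℤ))
  have := card_image_le (s := z.natAbs.divisors) (f := fun d : ℕ => -(d : ℤ))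
  omega

/-- `2 D` near the second axis -/
def El (D : Finset (ℤ × ℤ)) (H : ℕ) : Finset (ℤ × ℤ) :=
  (D + D).filter fun w => |w.1| ≤ 2 * (H : ℤ)

lemma card_El {D : Finset (ℤ × ℤ)} {H : ℕ} {W : ℝ}
    (hfib : ∀ u : ℤ, ((((D + D).filter fun w => w.1 = u).card : ℕ) : ℝ) ≤ W) :
    ((El D H).card : ℝ) ≤ (4 * H + 1) * W := by
  classical
  have h1 : (El D H).card = ∑ u ∈ Icc (-(2 * (H : ℤ))) (2 * (H : ℤ)),
      ((El D H).filter fun w => w.1 = u).card := by
    refine card_eq_sum_card_fiberwise fun w hw => ?_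
    rw [mem_coe, El, mem_filter] at hw
    rw [mem_coe, mem_Icc]
    exact abs_le.mp hw.2
  rw [h1]
  push_cast
  calc _ ≤ ∑ u ∈ Icc (-(2 * (H : ℤ))) (2 * (H : ℤ)), W := by
        refine sum_le_sum fun u _ => le_trans ?_ (hfib u)
        have : ((El D H).filter fun w => w.1 = u) ⊆ ((D + D).filter fun w => w.1 = u) := by
          intro w hw
          rw [mem_filter, El, mem_filter] at hw
          rw [mem_filter]
          exact ⟨hw.1.1, hw.2⟩
        exact_mod_cast card_le_card this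
    _ = _ := by
        rw [sum_const, Int.card_Icc, nsmul_eq_mul]
        congr 1
        have : (2 * (H : ℤ) + 1 - -(2 * (H : ℤ))).toNat = 4 * H + 1 := by omega
        rw [this]
        push_cast
        ring

lemma Ml_first {D : Finset (ℤ × ℤ)} {B L H : ℕ} (hD : ∀ x ∈ D, |x.2| ≤ 2 * (B : ℤ))
    (hH : 2 * B < L * (H + 1)) {l : ℤ} (hl : (L : ℤ) ≤ l) {x : ℤ × ℤ} (hx : x ∈ Ml D l) :
    |x.1| ≤ H ∧ L * |x.1| ≤ 2 * (B : ℤ) := by
  rw [Ml, mem_filter] at hx
  obtain ⟨h1, h2, h3⟩ := hx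
  have h4 := hD x h1
  rw [h3, abs_mul, abs_neg] at h4
  have hL0 : (0 : ℤ) ≤ L := Int.natCast_nonneg _
  have hl0 : |l| = l := abs_of_nonneg (hL0.trans hl)
  rw [hl0] at h4
  have h5 : L * |x.1| ≤ 2 * (B : ℤ) :=
    (mul_le_mul_of_nonneg_right hl (abs_nonneg _)).trans h4
  refine ⟨?_, h5⟩
  by_contra hcon
  push Not at hcon
  have h6 : (L : ℤ) * (H + 1) ≤ L * |x.1| := mul_le_mul_of_nonneg_left (by omega) hL0
  have h7 : 2 * (B : ℤ) < L * (H + 1) := by exact_mod_cast hH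
  linarith

/-- products over two different lines -/
lemma two_lines {D : Finset (ℤ × ℤ)} {B L H : ℕ} (hD : ∀ x ∈ D, |x.2| ≤ 2 * (B : ℤ))
    (hH : 2 * B < L * (H + 1)) {l k : ℤ} (hl : (L : ℤ) ≤ l) (hk : (L : ℤ) ≤ k) (hne : l ≠ k) :
    (Ml D l).card * (Ml D k).card ≤ (El D H).card := by
  classical
  rw [← card_product]
  refine card_le_card_of_injOn (fun x : (ℤ × ℤ) × (ℤ × ℤ) => x.1 + x.2) ?_ ?_
  · rintro ⟨x, y⟩ hx
    rw [mem_coe, mem_product] at hx
    obtain ⟨hx1, hx2⟩ := hx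
    simp only at hx1 hx2
    rw [mem_coe, El, mem_filter]
    refine ⟨add_mem_add (mem_filter.mp hx1).1 (mem_filter.mp hx2).1, ?_⟩
    have e1 := (Ml_first hD hH hl hx1).1
    have e2 := (Ml_first hD hH hk hx2).1
    have e3 := abs_add_le x.1 y.1
    simp only [Prod.fst_add]
    linarith
  · rintro ⟨x, y⟩ hx ⟨x', y'⟩ hx' he
    rw [mem_coe, mem_product] at hx hx'
    obtain ⟨hx1, hx2⟩ := hx
    obtain ⟨hx1', hx2'⟩ := hx'
    simp only at hx1 hx2 hx1' hx2' he
    have a1 := (mem_filter.mp hx1).2.2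
    have a2 := (mem_filter.mp hx2).2.2
    have a3 := (mem_filter.mp hx1').2.2
    have a4 := (mem_filter.mp hx2').2.2
    have e1 := congrArg Prod.fst he
    have e2 := congrArg Prod.snd he
    simp only [Prod.fst_add, Prod.snd_add] at e1 e2
    rw [a1, a2, a3, a4] at e2
    have e3 : (k - l) * (x.1 - x'.1) = 0 := by linear_combination e2 + k * e1
    have e4 : x.1 = x'.1 := by
      rcases mul_eq_zero.mp e3 with h | h
      · exact absurd (by linarith : l = k) hne
      · linarith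
    have e5 : y.1 = y'.1 := by linarith
    have e6 : x = x' := Prod.ext e4 (by rw [a1, a3, e4])
    have e7 : y = y' := Prod.ext e5 (by rw [a2, a4, e5])
    rw [e6, e7]

/-- one line against all the others -/
lemma one_line {D : Finset (ℤ × ℤ)} {B L H t : ℕ} (hD : ∀ x ∈ D, |x.2| ≤ 2 * (B : ℤ))
    (hH : 2 * B < L * (H + 1)) {S : Finset ℤ} (hS : ∀ l ∈ S, (L : ℤ) ≤ l ∧ l < 2 * L)
    (ht : ∀ z : ℕ, 1 ≤ z → z ≤ 2 * B → z.divisors.card ≤ t) {k : ℤ} (hk : (L : ℤ) ≤ k)
    (hk2 : k < 2 * L) :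
    (∑ l ∈ S.erase k, (Ml D l).card) * (Ml D k).card ≤ 2 * t * (El D H).card := by
  classical
  have hdisj : (∑ l ∈ S.erase k, (Ml D l).card) = ((S.erase k).biUnion (Ml D)).card := by
    rw [card_biUnion]
    intro l _ l' _ hll
    rw [Function.onFun, disjoint_left]
    intro x hx hx'
    have a1 := (mem_filter.mp hx).2
    have a2 := (mem_filter.mp hx').2
    apply hll
    have e : (l - l') * x.1 = 0 := by linear_combination a1.2 - a2.2
    rcases mul_eq_zero.mp e with h | h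
    · linarith
    · exact absurd h a1.1
  rw [hdisj, ← card_product]
  refine card_le_mul_card_image_of_maps_to (f := fun x : (ℤ × ℤ) × (ℤ × ℤ) => x.1 + x.2) ?_ _ ?_
  · rintro ⟨x, y⟩ hx
    rw [mem_product] at hx
    obtain ⟨hx1, hx2⟩ := hx
    simp only at hx1 hx2
    obtain ⟨l, hl, hxl⟩ := mem_biUnion.mp hx1
    have hlS := hS l (mem_of_mem_erase hl)
    rw [El, mem_filter]
    refine ⟨add_mem_add (mem_filter.mp hxl).1 (mem_filter.mp hx2).1, ?_⟩
    have e1 := (Ml_first hD hH hlS.1 hxl).1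
    have e2 := (Ml_first hD hH hk hx2).1
    have e3 := abs_add_le x.1 y.1
    simp only [Prod.fst_add]
    linarith
  · intro w _
    set F := (((S.erase k).biUnion (Ml D)) ×ˢ (Ml D k)).filter
      (fun x : (ℤ × ℤ) × (ℤ × ℤ) => x.1 + x.2 = w) with hF
    rcases F.eq_empty_or_nonempty with h0 | ⟨⟨x0, y0⟩, hxy0⟩
    · rw [h0, card_empty]
      exact Nat.zero_le _
    · have hkey : ∀ x ∈ F, x.1.1 ∣ w.2 + k * w.1 ∧ w.2 + k * w.1 ≠ 0 ∧
          |w.2 + k * w.1| ≤ 2 * (B : ℤ) := by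
        rintro ⟨x, y⟩ hx
        rw [hF, mem_filter, mem_product] at hx
        obtain ⟨⟨hx1, hx2⟩, hw⟩ := hx
        simp only at hx1 hx2 hw
        obtain ⟨l, hl, hxl⟩ := mem_biUnion.mp hx1
        have hlS := hS l (mem_of_mem_erase hl)
        have a1 := (mem_filter.mp hxl).2
        have a2 := (mem_filter.mp hx2).2
        have e : w.2 + k * w.1 = (k - l) * x.1 := by
          rw [← hw]
          simp only [Prod.fst_add, Prod.snd_add]
          linear_combination a1.2 + a2.2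
        have hkl : k - l ≠ 0 := by
          intro h
          exact (ne_of_mem_erase hl) (by linarith)
        refine ⟨?_, ?_, ?_⟩
        · rw [e]
          exact Dvd.intro_left _ rfl
        · rw [e]
          exact mul_ne_zero hkl a1.1
        · rw [e, abs_mul]
          have b1 := (Ml_first hD hH hlS.1 hxl).2
          have b2 : |k - l| ≤ L := by
            rw [abs_le]
            constructor <;> linarith [hlS.1, hlS.2]
          exact (mul_le_mul_of_nonneg_right b2 (abs_nonneg _)).trans b1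
      obtain ⟨_, hz0, hz1⟩ := hkey _ hxy0
      have hinj : F.card ≤ (F.image fun x => x.1.1).card := by
        rw [card_image_of_injOn]
        rintro ⟨x, y⟩ hx ⟨x', y'⟩ hx' he
        rw [mem_coe, hF, mem_filter, mem_product] at hx hx'
        obtain ⟨⟨hx1, hx2⟩, hw⟩ := hx
        obtain ⟨⟨hx1', hx2'⟩, hw'⟩ := hx'
        simp only at hx1 hx2 hx1' hx2' he hw hw'
        have a2 := (mem_filter.mp hx2).2.2
        have a4 := (mem_filter.mp hx2').2.2
        have e1 := congrArg Prod.fst (hw.trans hw'.symm)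
        have e2 := congrArg Prod.snd (hw.trans hw'.symm)
        simp only [Prod.fst_add, Prod.snd_add] at e1 e2
        have e3 : y.1 = y'.1 := by linarith
        have e4 : y = y' := Prod.ext e3 (by rw [a2, a4, e3])
        have e5 : x = x' := Prod.ext he (by rw [e4] at e2; linarith)
        rw [e4, e5]
      refine hinj.trans ?_
      refine (intdiv_card hz0 _ ?_).trans ?_
      · intro h hh
        obtain ⟨x, hx, hxe⟩ := mem_image.mp hh
        rw [← hxe]
        exact (hkey x hx).1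
      · refine Nat.mul_le_mul_left _ (ht _ ?_ ?_)
        · exact Int.natAbs_pos.mpr hz0
        · have : ((w.2 + k * w.1).natAbs : ℤ) ≤ 2 * (B : ℤ) := by
            rw [Int.natCast_natAbs]
            exact hz1
          exact_mod_cast this

/-- the sum over all lines except one with the most points -/
lemma T_bound {D : Finset (ℤ × ℤ)} {B L H t : ℕ} (hD : ∀ x ∈ D, |x.2| ≤ 2 * (B : ℤ))
    (hH : 2 * B < L * (H + 1)) {S : Finset ℤ} (hS : ∀ l ∈ S, (L : ℤ) ≤ l ∧ l < 2 * L)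
    (ht : ∀ z : ℕ, 1 ≤ z → z ≤ 2 * B → z.divisors.card ≤ t) (ht1 : 1 ≤ t) {l0 : ℤ}
    (hl0 : l0 ∈ S) (hmax : ∀ l ∈ S, (Ml D l).card ≤ (Ml D l0).card) :
    (∑ l ∈ S.erase l0, (Ml D l).card) ^ 2 ≤ (S.erase l0).card * (3 * t * (El D H).card) := by
  classical
  set T := ∑ l ∈ S.erase l0, (Ml D l).card with hT
  have h1 : T ^ 2 = ∑ k ∈ S.erase l0, T * (Ml D k).card := by
    rw [← mul_sum, sq]
  rw [h1, ← smul_eq_mul, ← sum_const]
  refine sum_le_sum fun k hk => ?_
  have hkS := mem_of_mem_erase hk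
  have hT2 : T = (∑ l ∈ (S.erase l0).erase k, (Ml D l).card) + (Ml D k).card := by
    rw [hT, sum_erase_add _ _ hk]
  have a1 := one_line hD hH (S := S.erase l0) (fun l hl => hS l (mem_of_mem_erase hl)) ht
    (hS k hkS).1 (hS k hkS).2
  have a2 : (Ml D k).card * (Ml D k).card ≤ (El D H).card :=
    (Nat.mul_le_mul_right _ (hmax k hkS)).trans
      (two_lines hD hH (hS l0 hl0).1 (hS k hkS).1 (ne_of_mem_erase hk).symm)
  rw [hT2, add_mul]
  have a3 : (El D H).card ≤ t * (El D H).card := Nat.le_mul_of_pos_left _ ht1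
  calc _ ≤ 2 * t * (El D H).card + (El D H).card := add_le_add a1 a2
    _ ≤ 2 * t * (El D H).card + t * (El D H).card := Nat.add_le_add_left a3 _
    _ = _ := by ring

/-- **The finite inequality.** -/
theorem finite_bound {Q : Finset ℕ} {b : ℕ → ℤ} {C : Finset ℤ} {s : ℤ} {Y h L B H t : ℕ} {V : ℝ}
    (hne : Q.Nonempty) (hQ : ∀ p ∈ Q, p.Prime ∧ Y ≤ p ∧ p ≤ 2 * Y)
    (hb : ∀ p ∈ Q, |b p| ≤ (B : ℤ))
    (hC : ∀ p ∈ Q, ∀ l : ℤ, (L : ℤ) ≤ l → l < 2 * L → s + b p + l * p ∈ C)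
    (hV : ((Gr Q b - Gr Q b).card : ℝ) ≤ V * Q.card)
    (hh : 2 * B + 2 * L * Y < Y ^ h)
    (ht : ∀ z : ℕ, 1 ≤ z → z ≤ 2 * B → z.divisors.card ≤ t) (ht1 : 1 ≤ t)
    (hL : 1 ≤ L) (hH : 2 * B < L * (H + 1)) :
    ∃ T : ℝ, 0 ≤ T ∧ T ^ 2 ≤ L * (3 * t * ((4 * H + 1) * V ^ 5)) ∧
      (Q.card : ℝ) * ((L : ℝ) - 1) ^ 2 ≤ C.card * (L * (1 + h * V) + T) := by
  classical
  set D := Gr Q b - Gr Q b with hDdef
  have hQ0 : (0 : ℝ) < Q.card := by exact_mod_cast hne.card_pos
  have hV0 : 0 ≤ V := by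
    have h1 : 0 ≤ V * Q.card := le_trans (Nat.cast_nonneg _) hV
    exact nonneg_of_mul_nonneg_left h1 hQ0
  have hDel : ∀ x ∈ D, |x.2| ≤ 2 * (B : ℤ) ∧ |x.1| ≤ (Y : ℤ) := by
    intro x hx
    obtain ⟨y, hy, z, hz, rfl⟩ := mem_sub.mp hx
    obtain ⟨p, hp, rfl⟩ := mem_image.mp hy
    obtain ⟨q, hq, rfl⟩ := mem_image.mp hz
    obtain ⟨_, p1, p2⟩ := hQ p hp
    obtain ⟨_, q1, q2⟩ := hQ q hq
    simp only [Prod.fst_sub, Prod.snd_sub]
    constructor
    · have e1 := abs_le.mp (hb p hp)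
      have e2 := abs_le.mp (hb q hq)
      rw [abs_le]
      constructor <;> linarith [e1.1, e1.2, e2.1, e2.2]
    · rw [abs_le]
      constructor <;> omega
  set S : Finset ℤ := Ico (L : ℤ) (2 * L) with hS
  have hScard : S.card = L := by
    rw [hS, Int.card_Ico]
    omega
  have hSne : S.Nonempty := by
    rw [← card_pos, hScard]
    exact hL
  obtain ⟨l0, hl0, hmax⟩ := exists_max_image S (fun l => (Ml D l).card) hSne
  have hSmem : ∀ l ∈ S, (L : ℤ) ≤ l ∧ l < 2 * L := fun l hl => mem_Ico.mp hl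
  set S' := S.erase l0 with hS'
  have hS'card : S'.card + 1 = L := by
    rw [hS', card_erase_add_one hl0, hScard]
  have hS'L : S'.card ≤ L := by omega
  have hT := T_bound (fun x hx => (hDel x hx).1) hH hSmem ht ht1 hl0 hmax
  set T : ℕ := ∑ l ∈ S', (Ml D l).card with hTdef
  have hsq := sq_card_le_fiber (Q ×ˢ S') (fun x : ℕ × ℤ => s + b x.1 + x.2 * x.1) C (by
    rintro ⟨p, l⟩ hx
    obtain ⟨hp, hl⟩ := mem_product.mp hx
    have := hSmem l (mem_of_mem_erase hl)
    exact hC p hp l this.1 this.2)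
  have hpairs := pairs_le (Q := Q) (b := b) (S := S') (s := s) (Y := Y) (h := h)
    (fun p hp => ⟨(hQ p hp).1, (hQ p hp).2.1⟩) (by
    intro x hx l hl
    have hl' := hSmem l (mem_of_mem_erase hl)
    have h1 := hDel x hx
    have h2 : |x.2 + l * x.1| ≤ 2 * (B : ℤ) + 2 * L * Y := by
      have hL0 : (0 : ℤ) ≤ L := Int.natCast_nonneg _
      have e1 : |l| ≤ 2 * (L : ℤ) := by
        rw [abs_of_nonneg (hL0.trans hl'.1)]
        exact hl'.2.le
      have e2 : |l * x.1| ≤ 2 * (L : ℤ) * Y := by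
        rw [abs_mul]
        exact mul_le_mul e1 h1.2 (abs_nonneg _) (by positivity)
      exact (abs_add_le _ _).trans (add_le_add h1.1 e2)
    have h3 : ((x.2 + l * x.1).natAbs : ℤ) < ((Y ^ h : ℕ) : ℤ) := by
      rw [Int.natCast_natAbs]
      refine lt_of_le_of_lt h2 ?_
      exact_mod_cast hh
    exact_mod_cast h3)
  refine ⟨T, Nat.cast_nonneg _, ?_, ?_⟩
  · have hfib : ∀ u : ℤ, ((((D + D).filter fun w => w.1 = u).card : ℕ) : ℝ) ≤ V ^ 5 := by
      intro u
      refine fiber_le (G := Gr Q b) (hne.image _) ?_ ?_ u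
      · intro x hx y hy hxy
        obtain ⟨p, hp, rfl⟩ := mem_image.mp hx
        obtain ⟨q, hq, rfl⟩ := mem_image.mp hy
        simp only [Nat.cast_inj] at hxy
        rw [hxy]
      · rw [card_Gr]
        exact hV
    have hE := card_El (H := H) hfib
    have h1 : ((T : ℝ)) ^ 2 ≤ S'.card * (3 * t * (El D H).card) := by exact_mod_cast hT
    refine h1.trans ?_
    have h2 : (S'.card : ℝ) ≤ L := by exact_mod_cast hS'L
    gcongr
  · have h1 : ((Q.card : ℝ) * S'.card) ^ 2 ≤ C.card *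
        (S'.card * Q.card + T * Q.card + D.card * S'.card * h) := by
      have h2 := hsq.trans (Nat.mul_le_mul_left C.card hpairs)
      rw [card_product] at h2
      exact_mod_cast h2
    have h3 : (S'.card : ℝ) = L - 1 := by
      rw [← hS'card]
      push_cast
      ring
    have h4 : (S'.card : ℝ) ≤ L := by exact_mod_cast hS'L
    have h5 : (D.card : ℝ) * S'.card * h ≤ V * Q.card * L * h := by gcongr
    have h6 : (S'.card : ℝ) * Q.card ≤ L * Q.card := by gcongr
    have h7 : ((Q.card : ℝ) * S'.card) ^ 2 ≤ C.card * (L * (1 + h * V) + T) * Q.card := by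
      refine h1.trans ?_
      have h8 : (S'.card : ℝ) * Q.card + T * Q.card + D.card * S'.card * h
          ≤ (L * (1 + h * V) + T) * Q.card := by
        calc _ ≤ (L : ℝ) * Q.card + T * Q.card + V * Q.card * L * h :=
              add_le_add (add_le_add h6 le_rfl) h5
          _ = _ := by ring
      calc _ ≤ (C.card : ℝ) * ((L * (1 + h * V) + T) * Q.card) :=
            mul_le_mul_of_nonneg_left h8 (Nat.cast_nonneg _)
        _ = _ := by ring
    rw [← h3]
    have h9 : ((Q.card : ℝ) * S'.card) ^ 2 = ((Q.card : ℝ) * (S'.card : ℝ) ^ 2) * Q.card := by ring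
    rw [h9] at h7
    exact le_of_mul_le_mul_right h7 hQ0

end Pool.Agent.V7H62.AC
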